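import Pool.Agent.Helper13.Sof.Goals

/-!
# Packet HEAT: heat flow
-/

namespace Pool.Agent.Helper41.Sof

open Finset Pool.Agent.Helper13.Sof

noncomputable section

set_option linter.unusedSectionVars false

section

variable {A I : Type} [Fintype A] [Fintype I]

/-- the inner product -/
def ip (f g : A → I → ℝ) : ℝ := ∑ s, ∑ i, f s i * g s i

lemma nsq_eq (f : A → I → ℝ) : nsq f = ip f f := by
  unfold nsq ip
  simp only [pow_two]

lemma ip_comm (f g : A → I → ℝ) : ip f g = ip g f := by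
  unfold ip
  simp only [mul_comm]

lemma ip_add_left (f g h : A → I → ℝ) : ip (f + g) h = ip f h + ip g h := by
  unfold ip
  simp only [Pi.add_apply, add_mul, sum_add_distrib]

lemma ip_smul_left (c : ℝ) (f g : A → I → ℝ) : ip (c • f) g = c * ip f g := by
  unfold ip
  simp only [Pi.smul_apply, smul_eq_mul, mul_assoc, mul_sum]

lemma ip_sub_left (f g h : A → I → ℝ) : ip (f - g) h = ip f h - ip g h := by
  unfold ip
  simp only [Pi.sub_apply, sub_mul, sum_sub_distrib]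

lemma ip_sub_right (f g h : A → I → ℝ) : ip h (f - g) = ip h f - ip h g := by
  rw [ip_comm, ip_sub_left, ip_comm f, ip_comm g]

lemma ip_smul_right (c : ℝ) (f g : A → I → ℝ) : ip g (c • f) = c * ip g f := by
  rw [ip_comm, ip_smul_left, ip_comm f]

lemma ip_zero_left (f : A → I → ℝ) : ip 0 f = 0 := by
  unfold ip; simp

lemma ip_sum_left {n : ℕ} (F : Fin n → A → I → ℝ) (g : A → I → ℝ) :
    ip (∑ j, F j) g = ∑ j, ip (F j) g := by
  have : ∀ t : Finset (Fin n), ip (∑ j ∈ t, F j) g = ∑ j ∈ t, ip (F j) g := by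
    intro t
    induction t using Finset.induction_on with
    | empty => simp [ip_zero_left]
    | insert a t ha ih => rw [sum_insert ha, sum_insert ha, ip_add_left, ih]
  exact this _

lemma ip_self_nonneg (f : A → I → ℝ) : 0 ≤ ip f f :=
  sum_nonneg fun _ _ => sum_nonneg fun _ _ => mul_self_nonneg _

/-- the average over the powers of `x` -/
def Pv (p : ℕ) (x : Equiv.Perm A) (f : A → I → ℝ) : A → I → ℝ :=
  fun s i => (∑ a ∈ range p, f ((x ^ a) s) i) / (p : ℝ)

lemma Qv_eq (p : ℕ) (x : Equiv.Perm A) (f : A → I → ℝ) : Qv p x f = f - Pv p x f := rfl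

lemma shift {p : ℕ} {h : ℕ → ℝ} (hp : h p = h 0) :
    ∑ a ∈ range p, h (a + 1) = ∑ a ∈ range p, h a := by
  have h1 := sum_range_succ h p
  have h2 := sum_range_succ' h p
  rw [h2, hp] at h1
  linarith

variable {p : ℕ} {x : Equiv.Perm A}

lemma Pv_inv (hx : x ^ p = 1) (f : A → I → ℝ) (s : A) (i : I) :
    Pv p x f (x s) i = Pv p x f s i := by
  unfold Pv
  congr 1
  have h := shift (p := p) (h := fun a => f ((x ^ a) s) i) (by simp [hx])
  rw [← h]
  refine sum_congr rfl fun a _ => ?_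
  rw [pow_succ]
  rfl

lemma Pv_inv' (hx : x ^ p = 1) (f : A → I → ℝ) (s : A) (i : I) (a : ℕ) :
    Pv p x f ((x ^ a) s) i = Pv p x f s i := by
  induction a with
  | zero => simp
  | succ a ih =>
    rw [pow_succ']
    show Pv p x f (x ((x ^ a) s)) i = _
    rw [Pv_inv hx, ih]

lemma Pv_idem (h0 : 0 < p) (hx : x ^ p = 1) (f : A → I → ℝ) : Pv p x (Pv p x f) = Pv p x f := by
  funext s i
  show (∑ a ∈ range p, Pv p x f ((x ^ a) s) i) / (p : ℝ) = _
  simp only [Pv_inv' hx]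
  rw [sum_const, card_range, nsmul_eq_mul]
  have : (p : ℝ) ≠ 0 := by exact_mod_cast h0.ne'
  field_simp

lemma ip_Pv_Pv (h0 : 0 < p) (hx : x ^ p = 1) (f g : A → I → ℝ) :
    ip (Pv p x f) (Pv p x g) = ip (Pv p x f) g := by
  have hp : (p : ℝ) ≠ 0 := by exact_mod_cast h0.ne'
  have h1 : ∀ a : ℕ, ∑ s, ∑ i, Pv p x f s i * g ((x ^ a) s) i = ip (Pv p x f) g := by
    intro a
    unfold ip
    rw [← Equiv.sum_comp (x ^ a) (fun s => ∑ i, Pv p x f s i * g s i)]
    refine sum_congr rfl fun s _ => sum_congr rfl fun i _ => ?_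
    rw [Pv_inv' hx]
  have h2 : ip (Pv p x f) (Pv p x g) =
      (∑ a ∈ range p, ∑ s, ∑ i, Pv p x f s i * g ((x ^ a) s) i) / (p : ℝ) := by
    rw [sum_comm, sum_div]
    unfold ip
    refine sum_congr rfl fun s _ => ?_
    rw [sum_comm, sum_div]
    refine sum_congr rfl fun i _ => ?_
    rw [← mul_sum, mul_div_assoc]
    rfl
  rw [h2]
  simp only [h1]
  rw [sum_const, card_range, nsmul_eq_mul]
  field_simp

lemma ip_Pv (h0 : 0 < p) (hx : x ^ p = 1) (f g : A → I → ℝ) :
    ip (Pv p x f) g = ip f (Pv p x g) := by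
  rw [← ip_Pv_Pv h0 hx f g, ip_comm, ip_Pv_Pv h0 hx g f, ip_comm]

lemma ip_Qv (h0 : 0 < p) (hx : x ^ p = 1) (f g : A → I → ℝ) :
    ip (Qv p x f) g = ip f (Qv p x g) := by
  rw [Qv_eq, Qv_eq, ip_sub_left, ip_sub_right, ip_Pv h0 hx]

lemma ip_Qv_self (h0 : 0 < p) (hx : x ^ p = 1) (f : A → I → ℝ) :
    ip (Qv p x f) f = nsq (Qv p x f) := by
  rw [nsq_eq, Qv_eq, ip_sub_left, ip_sub_left, ip_sub_right, ip_sub_right,
    ip_Pv_Pv h0 hx f f, ip_Pv h0 hx f f]
  ring

lemma nsq_Qv_le (h0 : 0 < p) (hx : x ^ p = 1) (f : A → I → ℝ) : nsq (Qv p x f) ≤ nsq f := by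
  rw [← ip_Qv_self h0 hx f, nsq_eq, Qv_eq, ip_sub_left]
  have h1 := ip_Pv_Pv h0 hx f f
  have h2 := ip_self_nonneg (Pv p x f)
  linarith

lemma Pv_lin (f g : A → I → ℝ) (c : ℝ) : Pv p x (f - c • g) = Pv p x f - c • Pv p x g := by
  funext s i
  show (∑ a ∈ range p, (f ((x ^ a) s) i - c * g ((x ^ a) s) i)) / (p : ℝ) =
    (∑ a ∈ range p, f ((x ^ a) s) i) / (p : ℝ) - c * ((∑ a ∈ range p, g ((x ^ a) s) i) / (p : ℝ))
  rw [sum_sub_distrib, ← mul_sum]
  ring

lemma Qv_lin (f g : A → I → ℝ) (c : ℝ) : Qv p x (f - c • g) = Qv p x f - c • Qv p x g := by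
  rw [Qv_eq, Qv_eq, Qv_eq, Pv_lin, smul_sub]
  abel

end

section

variable {A I : Type} [Fintype A] [Fintype I] {n p : ℕ} {ξ : Fin n → Equiv.Perm A}

lemma lap_eq (f : A → I → ℝ) : lap p ξ f = ∑ j, Qv p (ξ j) f := by
  funext s i
  rw [Finset.sum_apply, Finset.sum_apply]
  rfl

lemma lap_lin (f g : A → I → ℝ) (c : ℝ) : lap p ξ (f - c • g) = lap p ξ f - c • lap p ξ g := by
  rw [lap_eq, lap_eq, lap_eq, smul_sum, ← sum_sub_distrib]
  exact sum_congr rfl fun j _ => Qv_lin _ _ _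

variable (h0 : 0 < p) (hξ : ∀ j, ξ j ^ p = 1)

include h0 hξ

lemma lap_self (f g : A → I → ℝ) : ip (lap p ξ f) g = ip f (lap p ξ g) := by
  rw [lap_eq, lap_eq, ip_sum_left, ip_comm f, ip_sum_left]
  refine sum_congr rfl fun j _ => ?_
  rw [ip_Qv h0 (hξ j), ip_comm]

lemma energy_eq (f : A → I → ℝ) : energy p ξ f = ip (lap p ξ f) f := by
  rw [lap_eq, ip_sum_left]
  exact sum_congr rfl fun j _ => (ip_Qv_self h0 (hξ j) f).symm

omit h0 hξ in
lemma energy_nonneg (f : A → I → ℝ) : 0 ≤ energy p ξ f :=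
  sum_nonneg fun j _ => by rw [nsq_eq]; exact ip_self_nonneg _

lemma energy_le (f : A → I → ℝ) : energy p ξ f ≤ n * nsq f := by
  have h : energy p ξ f ≤ ∑ _j : Fin n, nsq f := sum_le_sum fun j _ => nsq_Qv_le h0 (hξ j) f
  rw [sum_const, card_univ, Fintype.card_fin, nsmul_eq_mul] at h
  exact h

omit h0 hξ in
lemma lap_le (f : A → I → ℝ) : nsq (lap p ξ f) ≤ n * energy p ξ f := by
  have h : nsq (lap p ξ f) ≤ ∑ s, ∑ i, (n : ℝ) * ∑ j, (Qv p (ξ j) f s i) ^ 2 := by
    refine sum_le_sum fun s _ => sum_le_sum fun i _ => ?_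
    have h1 := sq_sum_le_card_mul_sum_sq (s := (univ : Finset (Fin n)))
      (f := fun j => Qv p (ξ j) f s i)
    rw [card_univ, Fintype.card_fin] at h1
    exact h1
  refine h.trans (le_of_eq ?_)
  unfold energy nsq
  simp only [← mul_sum]
  congr 1
  rw [sum_comm]
  have h2 : ∀ s : A, ∑ i, ∑ j, (Qv p (ξ j) f s i) ^ 2 = ∑ j, ∑ i, (Qv p (ξ j) f s i) ^ 2 :=
    fun s => sum_comm
  rw [sum_comm]
  simp only [h2]
  exact sum_comm

/-- one step of the heat flow -/
def Tm (n p : ℕ) (ξ : Fin n → Equiv.Perm A) (f : A → I → ℝ) : A → I → ℝ :=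
  f - (1 / (n : ℝ)) • lap p ξ f

lemma Tm_self (f g : A → I → ℝ) : ip (Tm n p ξ f) g = ip f (Tm n p ξ g) := by
  unfold Tm
  rw [ip_sub_left, ip_sub_right, ip_smul_left, ip_smul_right, lap_self h0 hξ]

lemma nsq_Tm (f : A → I → ℝ) :
    nsq (Tm n p ξ f) = nsq f - 2 / n * energy p ξ f + 1 / (n : ℝ) ^ 2 * nsq (lap p ξ f) := by
  rw [nsq_eq, nsq_eq, nsq_eq, energy_eq h0 hξ]
  unfold Tm
  rw [ip_sub_left, ip_sub_right, ip_sub_right, ip_smul_left, ip_smul_right, ip_smul_left,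
    ip_smul_right, ip_comm f (lap p ξ f)]
  ring

lemma nsq_Tm_le (hn : 0 < n) (f : A → I → ℝ) : nsq (Tm n p ξ f) ≤ nsq f := by
  rw [nsq_Tm h0 hξ]
  have h1 := lap_le (p := p) (ξ := ξ) f
  have h2 := energy_nonneg (p := p) (ξ := ξ) f
  have hn' : (0 : ℝ) < n := by exact_mod_cast hn
  have h3 : 1 / (n : ℝ) ^ 2 * nsq (lap p ξ f) ≤ 1 / (n : ℝ) ^ 2 * (n * energy p ξ f) :=
    mul_le_mul_of_nonneg_left h1 (by positivity)
  have h4 : 1 / (n : ℝ) ^ 2 * (n * energy p ξ f) = 1 / n * energy p ξ f := by field_simp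
  have h5 : 2 / (n : ℝ) * energy p ξ f = 1 / n * energy p ξ f + 1 / n * energy p ξ f := by ring
  have h6 : 0 ≤ 1 / (n : ℝ) * energy p ξ f := by positivity
  linarith

lemma energy_Tm (hn : 0 < n) (f : A → I → ℝ) :
    energy p ξ (Tm n p ξ f) ≤ energy p ξ f - 1 / n * nsq (lap p ξ f) := by
  have hn' : (0 : ℝ) < n := by exact_mod_cast hn
  have h1 : energy p ξ (Tm n p ξ f) = energy p ξ f - 2 / n * nsq (lap p ξ f) +
      1 / (n : ℝ) ^ 2 * energy p ξ (lap p ξ f) := by
    rw [energy_eq h0 hξ, energy_eq h0 hξ, energy_eq h0 hξ, nsq_eq]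
    unfold Tm
    rw [lap_lin, ip_sub_left, ip_sub_right, ip_sub_right, ip_smul_left, ip_smul_right,
      ip_smul_left, ip_smul_right, lap_self h0 hξ (lap p ξ f) f]
    ring
  rw [h1]
  have h2 := energy_le h0 hξ (lap p ξ f)
  have h3 : 1 / (n : ℝ) ^ 2 * energy p ξ (lap p ξ f) ≤
      1 / (n : ℝ) ^ 2 * (n * nsq (lap p ξ f)) := mul_le_mul_of_nonneg_left h2 (by positivity)
  have h4 : 1 / (n : ℝ) ^ 2 * (n * nsq (lap p ξ f)) = 1 / n * nsq (lap p ξ f) := by field_simp
  have h5 : 2 / (n : ℝ) * nsq (lap p ξ f) = 1 / n * nsq (lap p ξ f) + 1 / n * nsq (lap p ξ f) := by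
    ring
  linarith

omit hξ in
lemma Tm_sub (hn : 0 < n) {f : A → I → ℝ} (hf : IsSub f) : IsSub (Tm n p ξ f) := by
  have hn' : (0 : ℝ) < n := by exact_mod_cast hn
  have hp' : (0 : ℝ) < p := by exact_mod_cast h0
  have h1 : ∀ s i, Tm n p ξ f s i = (∑ j, Pv p (ξ j) f s i) / n := by
    intro s i
    show f s i - 1 / (n : ℝ) * ∑ j, (f s i - Pv p (ξ j) f s i) = _
    rw [sum_sub_distrib, sum_const, card_univ, Fintype.card_fin, nsmul_eq_mul]
    field_simp
    ring
  constructor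
  · intro s i
    rw [h1]
    refine div_nonneg (sum_nonneg fun j _ => ?_) hn'.le
    exact div_nonneg (sum_nonneg fun a _ => hf.1 _ _) hp'.le
  · intro s
    simp only [h1]
    rw [← sum_div, div_le_one hn', sum_comm]
    have h2 : ∀ j : Fin n, ∑ i, Pv p (ξ j) f s i ≤ 1 := by
      intro j
      unfold Pv
      rw [← sum_div, div_le_one hp', sum_comm]
      have h3 : ∑ a ∈ range p, ∑ i, f ((ξ j ^ a) s) i ≤ ∑ a ∈ range p, (1 : ℝ) :=
        sum_le_sum fun a _ => hf.2 _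
      rw [sum_const, card_range, nsmul_eq_mul, mul_one] at h3
      exact h3
    have h3 : ∑ j : Fin n, ∑ i, Pv p (ξ j) f s i ≤ ∑ _j : Fin n, (1 : ℝ) :=
      sum_le_sum fun j _ => h2 j
    rw [sum_const, card_univ, Fintype.card_fin, nsmul_eq_mul, mul_one] at h3
    exact h3

omit h0 hξ in
lemma nsq_le_card {f : A → I → ℝ} (hf : IsSub f) : nsq f ≤ Fintype.card A := by
  have h1 : nsq f ≤ ∑ _s : A, (1 : ℝ) := by
    refine sum_le_sum fun s _ => ?_
    refine le_trans (sum_le_sum fun i _ => ?_) (hf.2 s)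
    have h2 : f s i ≤ 1 := le_trans (single_le_sum (fun i _ => hf.1 s i) (mem_univ i)) (hf.2 s)
    rw [pow_two]
    exact mul_le_of_le_one_left (hf.1 s i) h2
  rw [sum_const, card_univ, nsmul_eq_mul, mul_one] at h1
  exact h1

end

theorem heatFlow (h : GapIneq) : HeatFlow := by
  intro n p hp hnp δ hδ
  have h0 : 0 < p := hp.out.pos
  rcases Nat.eq_zero_or_pos n with hn | hn
  · subst hn
    refine ⟨1, one_pos, fun A _ S _ I _ f hf => ⟨f, hf, ?_, ?_⟩⟩
    · unfold energy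
      rw [univ_eq_empty, sum_empty]
      positivity
    · have h1 : nsq (fun s i => f s i - f s i) = 0 := by
        unfold nsq; simp
      rw [h1]
      have := energy_nonneg (p := p) (ξ := S.ξ) f
      positivity
  have hn' : (0 : ℝ) < n := by exact_mod_cast hn
  have hn1 : (1 : ℝ) ≤ n := by exact_mod_cast hn
  set ρ : ℝ := 1 - 1 / (2 * n) with hρ
  have hρ0 : 0 ≤ ρ := by
    rw [hρ, sub_nonneg, div_le_one (by positivity)]
    linarith
  have hρ1 : ρ < 1 := by
    rw [hρ]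
    have : 0 < 1 / (2 * (n : ℝ)) := by positivity
    linarith
  obtain ⟨k, hk⟩ := exists_pow_lt_of_lt_one (show 0 < δ / (2 * n) by positivity) hρ1
  have hk2 : ρ ^ (2 * k) ≤ δ / (2 * n) := by
    have h1 : ρ ^ (2 * k) ≤ ρ ^ k := pow_le_pow_of_le_one hρ0 hρ1.le (by omega)
    exact h1.trans hk.le
  refine ⟨δ / (96 * n ^ 2 + 96 * n * k), by positivity, fun A _ S hbad I _ f hf => ?_⟩
  set N : ℝ := (Fintype.card A : ℝ) with hN
  set b : ℝ := (S.bad.card : ℝ) with hb
  have hN0 : 0 ≤ N := by positivity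
  have hb0 : 0 ≤ b := by positivity
  have hb1 : (96 * n ^ 2 + 96 * n * k) * b ≤ δ * N := by
    have h1 : 0 < (96 * (n : ℝ) ^ 2 + 96 * n * k) := by positivity
    calc (96 * (n : ℝ) ^ 2 + 96 * n * k) * b
        ≤ (96 * (n : ℝ) ^ 2 + 96 * n * k) * (δ / (96 * n ^ 2 + 96 * n * k) * N) :=
          mul_le_mul_of_nonneg_left hbad h1.le
      _ = δ * N := by field_simp
  have hξ := S.ξ_pow
  let F : ℕ → A → I → ℝ := fun m => (Tm n p S.ξ)^[m] f
  have hF0 : F 0 = f := rfl
  have hFs : ∀ m, F (m + 1) = Tm n p S.ξ (F m) := fun m => Function.iterate_succ_apply' _ _ _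
  have hsub : ∀ m, IsSub (F m) := by
    intro m
    induction m with
    | zero => exact hf
    | succ m ih => rw [hFs]; exact Tm_sub h0 hn ih
  let E : ℕ → ℝ := fun m => energy p S.ξ (F m)
  have hE0 : ∀ m, 0 ≤ E m := fun m => energy_nonneg _
  have hstep : ∀ m, E (m + 1) ≤ E m - 1 / (2 * n) * E m + 24 * n * b := by
    intro m
    have h1 := energy_Tm h0 hξ hn (F m)
    rw [← hFs] at h1
    have h2 := h n p hnp A S I (F m) (hsub m)
    have h3 : 1 / (n : ℝ) * (1 / 2 * E m - 24 * (n : ℝ) ^ 2 * b) ≤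
        1 / n * nsq (lap p S.ξ (F m)) := by
      apply mul_le_mul_of_nonneg_left _ (by positivity)
      linarith
    have h4 : 1 / (n : ℝ) * (1 / 2 * E m - 24 * (n : ℝ) ^ 2 * b) =
        1 / (2 * n) * E m - 24 * n * b := by field_simp
    have h5 : E (m + 1) ≤ E m - 1 / n * nsq (lap p S.ξ (F m)) := h1
    linarith
  have hdec : ∀ m, E m ≤ ρ ^ m * E 0 + 48 * n ^ 2 * b := by
    intro m
    induction m with
    | zero =>
      rw [pow_zero, one_mul]
      have : 0 ≤ 48 * (n : ℝ) ^ 2 * b := by positivity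
      linarith
    | succ m ih =>
      have h1 := hstep m
      have h2 : E m - 1 / (2 * n) * E m = ρ * E m := by rw [hρ]; ring
      rw [h2] at h1
      have h3 : ρ * E m ≤ ρ * (ρ ^ m * E 0 + 48 * n ^ 2 * b) := mul_le_mul_of_nonneg_left ih hρ0
      have h4 : ρ * (ρ ^ m * E 0 + 48 * n ^ 2 * b) + 24 * n * b =
          ρ ^ (m + 1) * E 0 + 48 * n ^ 2 * b := by
        have h5 : ρ * (48 * n ^ 2 * b) = 48 * n ^ 2 * b - 24 * n * b := by
          rw [hρ]
          field_simp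
          ring
        rw [pow_succ]
        linear_combination h5
      linarith
  have hE0N : E 0 ≤ n * N := by
    have h1 := energy_le h0 hξ f
    have h2 := nsq_le_card hf
    exact h1.trans (mul_le_mul_of_nonneg_left h2 hn'.le)
  have hsum : ∀ m, (∑ j ∈ range m, 1 / (2 * n) * E j) ≤ E 0 - E m + 24 * n * m * b := by
    intro m
    induction m with
    | zero => simp
    | succ m ih =>
      rw [sum_range_succ]
      have h1 := hstep m
      push_cast
      have h2 : 24 * (n : ℝ) * (m + 1) * b = 24 * n * m * b + 24 * n * b := by ring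
      rw [h2]
      linarith
  have hns : ∀ m, nsq f - nsq (F m) ≤ 2 / n * ∑ j ∈ range m, E j := by
    intro m
    induction m with
    | zero => simp [hF0]
    | succ m ih =>
      rw [sum_range_succ, mul_add, hFs, nsq_Tm h0 hξ]
      have h1 : 0 ≤ 1 / (n : ℝ) ^ 2 * nsq (lap p S.ξ (F m)) := by
        apply mul_nonneg (by positivity)
        rw [nsq_eq]; exact ip_self_nonneg _
      have h2 : energy p S.ξ (F m) = E m := rfl
      rw [h2]
      linarith
  have hmono : ∀ m m', nsq (F (m + m')) ≤ nsq (F m) := by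
    intro m m'
    induction m' with
    | zero => exact le_rfl
    | succ m' ih =>
      rw [← add_assoc, hFs]
      exact (nsq_Tm_le h0 hξ hn _).trans ih
  have hip : ∀ m m', ip (F m) (F m') = ip f (F (m + m')) := by
    intro m
    induction m with
    | zero => intro m'; rw [zero_add, hF0]
    | succ m ih =>
      intro m'
      rw [hFs, Tm_self h0 hξ, ← hFs, ih]
      congr 2
      omega
  refine ⟨F (2 * k), hsub _, ?_, ?_⟩
  · show E (2 * k) ≤ δ * N
    have h1 := hdec (2 * k)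
    have h2 : ρ ^ (2 * k) * E 0 ≤ δ / (2 * n) * (n * N) :=
      mul_le_mul hk2 hE0N (hE0 0) (by positivity)
    have h3 : δ / (2 * n) * (n * N) = δ * N / 2 := by field_simp
    have h4 : 0 ≤ 96 * (n : ℝ) * k * b := by positivity
    nlinarith
  · have h1 : nsq (fun s i => f s i - F (2 * k) s i) = nsq f - 2 * nsq (F k) + nsq (F (2 * k)) := by
      have h2 : (fun s i => f s i - F (2 * k) s i) = f - F (2 * k) := rfl
      rw [h2, nsq_eq, ip_sub_left, ip_sub_right, ip_sub_right, nsq_eq, nsq_eq, nsq_eq,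
        ip_comm (F (2 * k)) f, hip k k, ← two_mul]
      ring
    rw [h1]
    have h2 : nsq (F (2 * k)) ≤ nsq (F k) := by
      have := hmono k k
      rwa [← two_mul] at this
    have h3 := hns k
    have h4 := hsum k
    rw [← mul_sum] at h4
    have h5 : 2 / n * ∑ j ∈ range k, E j = 4 * (1 / (2 * n) * ∑ j ∈ range k, E j) := by
      field_simp; ring
    rw [h5] at h3
    have h6 := hE0 k
    have h7 : E 0 = energy p S.ξ f := rfl
    have h8 : 0 ≤ 96 * (n : ℝ) ^ 2 * b := by positivity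
    nlinarith

end

end Pool.Agent.Helper41.Sof
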